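import Pool.Agent.P.MP_dba3d2_lc.A.Stmt

/-! Notions used in the statement on the first-order theory of hyperbolic groups. -/

namespace Pool.Agent.P.MP_dba3d2_lc

open FirstOrder

/-- The map `f` between groups is an elementary embedding for the language of groups. -/
def IsElementary {G L : Type} [Group G] [Group L] (f : G → L) : Prop :=
  ∃ e : @Language.ElementaryEmbedding grpLang G L (grpStructure G) (grpStructure L),
    @Language.ElementaryEmbedding.toFun grpLang G L (grpStructure G) (grpStructure L) e = f

/-- The subset `X` of the group `G` is definable with parameters in the language of groups. -/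
def IsDefinable {G : Type} [Group G] (X : Set G) : Prop :=
  @Set.Definable₁ G Set.univ grpLang (grpStructure G) X

/-- The subgroup `H` has a cyclic subgroup of finite index (finite groups included). -/
def VirtCyclic {G : Type} [Group G] (H : Subgroup G) : Prop :=
  ∃ c ∈ H, (Subgroup.zpowers c).relIndex H ≠ 0

end Pool.Agent.P.MP_dba3d2_lc
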