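import Pool.Agent.P.MP_dba3d2_lcT.Main

/-! Arbitrary extensions by a letter conjugating two finite subgroups. -/

namespace Pool.Agent.P.MP_dba3d2_lc

open FirstOrder

namespace Fo

variable {G L L' : Type} [Group G] [Group L] [Group L']

theorem elem_equiv {f : G → L} {f' : G → L'} (e : L ≃* L') (he : ∀ g, e (f g) = f' g)
    (h : IsElementary f) : IsElementary f' := by
  let _ := grpStructure G
  let _ := grpStructure L
  let _ := grpStructure L'
  let k : Language.Equiv grpLang L L' :=
    { toEquiv := e.toEquiv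
      map_fun' := by
        intro n f v
        cases f
        · exact map_mul e _ _
        · exact map_inv e _
        · exact map_one e
      map_rel' := fun r _ => r.elim }
  obtain ⟨j, rfl⟩ := h
  exact ⟨k.toElementaryEmbedding.comp j, funext he⟩

variable {A B : Subgroup G} {φ : A ≃* B}

/-- change of the letter -/
def chg {g : G} (hg : ∀ a : A, (φ a : G) = g * a * g⁻¹) : HNNExtension G A B φ ≃* Hnn A :=
  MonoidHom.toMulEquiv
    (HNNExtension.lift HNNExtension.of (HNNExtension.of g * HNNExtension.t) fun a => by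
      rw [mul_assoc, HNNExtension.t_mul_of, ← mul_assoc, ← mul_assoc, ← map_mul, ← map_mul,
        MulEquiv.refl_apply, hg, inv_mul_cancel_right])
    (HNNExtension.lift HNNExtension.of (HNNExtension.of g⁻¹ * HNNExtension.t) fun a => by
      rw [mul_assoc, HNNExtension.t_mul_of, ← mul_assoc, ← mul_assoc, ← map_mul, ← map_mul,
        MulEquiv.refl_apply, hg, mul_assoc g, inv_mul_cancel_left])
    (HNNExtension.hom_ext (MonoidHom.ext fun x => by simp) (by
      simp only [MonoidHom.comp_apply, HNNExtension.lift_t, map_mul, HNNExtension.lift_of,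
        MonoidHom.id_apply]
      rw [← mul_assoc, ← map_mul, mul_inv_cancel, map_one, one_mul]))
    (HNNExtension.hom_ext (MonoidHom.ext fun x => by simp) (by
      simp only [MonoidHom.comp_apply, HNNExtension.lift_t, map_mul, HNNExtension.lift_of,
        MonoidHom.id_apply]
      rw [← mul_assoc, ← map_mul, inv_mul_cancel, map_one, one_mul]))

theorem chg_of {g : G} (hg : ∀ a : A, (φ a : G) = g * a * g⁻¹) (x : G) :
    chg hg (HNNExtension.of x) = HNNExtension.of x := by
  simp [chg]

theorem inner_of (hA : Finite A)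
    (h : IsElementary (HNNExtension.of : G →* HNNExtension G A B φ)) :
    ∃ g : G, ∀ a : A, (φ a : G) = g * a * g⁻¹ := by
  have k := (FO.ex (FO.iInf fun a : A => FO.word (α := G ⊕ Unit)
    (.of (.inl (φ a)) * (FreeGroup.of (.inr ()) * .of (.inl a) *
      (FreeGroup.of (.inr ()))⁻¹)⁻¹))).transfer h id
  simp only [map_mul, map_inv, FreeGroup.lift_apply_of, Sum.elim_inl, Sum.elim_inr, id,
    mul_inv_eq_one, Function.comp_apply] at k
  exact k.1 ⟨HNNExtension.t, fun a => HNNExtension.equiv_eq_conj a⟩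

theorem tarski_gen (Γ : HG) (A B : Subgroup Γ.G) (φ : A ≃* B) (hA : Finite A) :
    IsElementary (HNNExtension.of : Γ.G →* HNNExtension Γ.G A B φ) ↔
      (∃ g : Γ.G, ∀ a : A, (φ a : Γ.G) = g * a * g⁻¹) ∧
      ¬ VirtCyclic (Subgroup.normalizer (A : Set Γ.G)) ∧ ∀ R : Subgroup Γ.G, Finite R →
        Subgroup.normalizer (A : Set Γ.G) ≤ Subgroup.normalizer (R : Set Γ.G) → R ≤ A := by
  refine ⟨fun h => ?_, fun ⟨⟨g, hg⟩, h⟩ => elem_equiv (chg hg).symm
    (fun x => (chg hg).symm_apply_eq.2 (chg_of hg x).symm) ((tarski Γ A hA).2 h)⟩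
  obtain ⟨g, hg⟩ := inner_of hA h
  exact ⟨⟨g, hg⟩, (tarski Γ A hA).1 (elem_equiv (chg hg) (chg_of hg) h)⟩

end Fo

end Pool.Agent.P.MP_dba3d2_lc
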