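import Pool.Agent.P.MP_dba3d2_lcT.Defs

/-! First-order predicates on groups, and the elementary consequences for extensions and
definable subgroups. -/

namespace Pool.Agent.P.MP_dba3d2_lc

open FirstOrder

namespace Fo

/-- realisation of a formula in a group -/
def Rz (X : Type) [Group X] {α : Type} (φ : grpLang.Formula α) (v : α → X) : Prop :=
  @Language.Formula.Realize grpLang X (grpStructure X) α φ v

/-- predicates on tuples of groups that are given by one formula -/
def FO {α : Type} (P : (X : Type) → [Group X] → (α → X) → Prop) : Prop :=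
  ∃ φ : grpLang.Formula α, ∀ (X : Type) [Group X] (v : α → X), P X v ↔ Rz X φ v

variable {α : Type}

theorem term_word (t : grpLang.Term α) :
    ∃ w : FreeGroup α, ∀ (X : Type) [Group X] (v : α → X),
      @Language.Term.realize grpLang X (grpStructure X) α v t = FreeGroup.lift v w := by
  induction t with
  | var x => exact ⟨FreeGroup.of x, fun X _ v => by simp⟩
  | func f ts ih =>
    choose w hw using ih
    cases f with
    | mul =>
      refine ⟨w 0 * w 1, fun X _ v => ?_⟩
      rw [map_mul, ← hw, ← hw]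
      rfl
    | inv =>
      refine ⟨(w 0)⁻¹, fun X _ v => ?_⟩
      rw [map_inv, ← hw]
      rfl
    | one => exact ⟨1, fun X _ v => by rw [map_one]; rfl⟩

theorem word_term (w : FreeGroup α) :
    ∃ t : grpLang.Term α, ∀ (X : Type) [Group X] (v : α → X),
      @Language.Term.realize grpLang X (grpStructure X) α v t = FreeGroup.lift v w := by
  induction w using FreeGroup.induction_on with
  | C1 => exact ⟨.func GrpFunc.one ![], fun X _ v => by rw [map_one]; rfl⟩
  | of x => exact ⟨.var x, fun X _ v => by simp⟩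
  | inv_of x ih =>
    obtain ⟨t, ht⟩ := ih
    exact ⟨.func GrpFunc.inv ![t], fun X _ v => by rw [map_inv, ← ht]; rfl⟩
  | mul x y ihx ihy =>
    obtain ⟨t, ht⟩ := ihx
    obtain ⟨s, hs⟩ := ihy
    exact ⟨.func GrpFunc.mul ![t, s], fun X _ v => by rw [map_mul, ← ht, ← hs]; rfl⟩

theorem FO.word (w : FreeGroup α) : FO fun _ _ (v : α → _) => FreeGroup.lift v w = 1 := by
  obtain ⟨t, ht⟩ := word_term w
  obtain ⟨s, hs⟩ := word_term (1 : FreeGroup α)
  refine ⟨t.equal s, fun X _ v => ?_⟩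
  let _ := grpStructure X
  rw [Rz, Language.Formula.realize_equal, ht, hs, map_one]

variable {P Q : (X : Type) → [Group X] → (α → X) → Prop}

theorem FO.imp (hP : FO P) (hQ : FO Q) : FO fun X _ v => P X v → Q X v := by
  obtain ⟨φ, h1⟩ := hP
  obtain ⟨ψ, h2⟩ := hQ
  refine ⟨φ.imp ψ, fun X _ v => ?_⟩
  let _ := grpStructure X
  rw [Rz, Language.Formula.realize_imp]
  exact imp_congr (h1 X v) (h2 X v)

theorem FO.and (hP : FO P) (hQ : FO Q) : FO fun X _ v => P X v ∧ Q X v := by
  obtain ⟨φ, h1⟩ := hP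
  obtain ⟨ψ, h2⟩ := hQ
  refine ⟨φ ⊓ ψ, fun X _ v => ?_⟩
  let _ := grpStructure X
  rw [Rz, Language.Formula.realize_inf]
  exact and_congr (h1 X v) (h2 X v)

theorem FO.iInf {β : Type} [Finite β] {R : β → (X : Type) → [Group X] → (α → X) → Prop}
    (h : ∀ b, FO (R b)) : FO fun X _ v => ∀ b, R b X v := by
  choose φ h1 using h
  refine ⟨.iInf φ, fun X _ v => ?_⟩
  let _ := grpStructure X
  rw [Rz, Language.Formula.realize_iInf]
  exact forall_congr' fun b => h1 b X v

theorem FO.iSup {β : Type} [Finite β] {R : β → (X : Type) → [Group X] → (α → X) → Prop}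
    (h : ∀ b, FO (R b)) : FO fun X _ v => ∃ b, R b X v := by
  choose φ h1 using h
  refine ⟨.iSup φ, fun X _ v => ?_⟩
  let _ := grpStructure X
  rw [Rz, Language.Formula.realize_iSup]
  exact exists_congr fun b => h1 b X v

theorem FO.all {R : (X : Type) → [Group X] → (α ⊕ Unit → X) → Prop} (h : FO R) :
    FO fun X _ v => ∀ g : X, R X (Sum.elim v fun _ => g) := by
  obtain ⟨φ, h1⟩ := h
  refine ⟨φ.iAlls Unit, fun X _ v => ?_⟩
  let _ := grpStructure X
  rw [Rz, Language.Formula.realize_iAlls]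
  exact ⟨fun h i => (h1 X _).1 (h (i ())), fun h g => (h1 X _).2 (h fun _ => g)⟩

theorem FO.ex {R : (X : Type) → [Group X] → (α ⊕ Unit → X) → Prop} (h : FO R) :
    FO fun X _ v => ∃ g : X, R X (Sum.elim v fun _ => g) := by
  obtain ⟨φ, h1⟩ := h
  refine ⟨φ.iExs Unit, fun X _ v => ?_⟩
  let _ := grpStructure X
  rw [Rz, Language.Formula.realize_iExs]
  exact ⟨fun ⟨g, h⟩ => ⟨fun _ => g, (h1 X _).1 h⟩, fun ⟨i, h⟩ => ⟨i (), (h1 X _).2 h⟩⟩

variable {G L : Type} [Group G] [Group L]

theorem FO.transfer (h : FO P) {f : G → L} (hf : IsElementary f) (v : α → G) :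
    P L (f ∘ v) ↔ P G v := by
  obtain ⟨φ, h1⟩ := h
  obtain ⟨e, rfl⟩ := hf
  let _ := grpStructure G
  let _ := grpStructure L
  rw [h1, h1]
  exact e.map_formula φ v

theorem FO.definable {R : (X : Type) → [Group X] → (G ⊕ Fin 1 → X) → Prop} (h : FO R)
    {S : Set G} (hS : ∀ g, g ∈ S ↔ R G (Sum.elim id fun _ => g)) : IsDefinable S := by
  obtain ⟨φ, h1⟩ := h
  let _ := grpStructure G
  refine Set.definable_iff_exists_formula_sum.2
    ⟨φ.relabel (Sum.map (fun g => ⟨g, Set.mem_univ g⟩) id), ?_⟩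
  ext v
  rw [Set.mem_ofPred_eq, Set.mem_ofPred_eq, Language.Formula.realize_relabel, hS, h1]
  refine iff_of_eq (congrArg (Rz G φ) (funext fun s => ?_))
  rcases s with s | s
  · rfl
  · rw [Subsingleton.elim s 0]
    rfl

theorem exists_formula {S : Set G} (h : IsDefinable S) :
    ∃ (A : Finset G) (φ : grpLang.Formula (A ⊕ Fin 1)),
      ∀ g, g ∈ S ↔ Rz G φ (Sum.elim Subtype.val fun _ => g) := by
  let _ := grpStructure G
  obtain ⟨A, -, h1⟩ := Set.definable_iff_finitely_definable.1 h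
  obtain ⟨φ, h2⟩ := Set.definable_iff_exists_formula_sum.1 h1
  exact ⟨A, φ, fun g => Set.ext_iff.1 h2 fun _ => g⟩

/-- a subgroup covered by finitely many definable translates is definable -/
theorem definable_cover {D H : Subgroup G} (hD : D.relIndex H ≠ 0) {S : Set G}
    (h1 : ∀ g ∈ D, g ∈ S) (h2 : ∀ g ∈ S, g ∈ H)
    (R : G → (X : Type) → [Group X] → (G ⊕ Fin 1 → X) → Prop) (hR : ∀ h, FO (R h))
    (hS : ∀ h g, h⁻¹ * g ∈ S ↔ R h G (Sum.elim id fun _ => g)) : IsDefinable (H : Set G) := by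
  have : Finite (H ⧸ D.subgroupOf H) := Subgroup.index_ne_zero_iff_finite.1 hD
  refine (FO.iSup fun q : H ⧸ D.subgroupOf H => hR (q.out : H)).definable fun g => ?_
  constructor
  · intro hg
    refine ⟨((⟨g, hg⟩ : H) : H ⧸ D.subgroupOf H), (hS _ g).1 (h1 _ ?_)⟩
    exact (QuotientGroup.eq (s := D.subgroupOf H)).1
      (QuotientGroup.out_eq' ((⟨g, hg⟩ : H) : H ⧸ D.subgroupOf H))
  · rintro ⟨q, hq⟩
    simpa using H.mul_mem q.out.2 (h2 _ ((hS _ g).2 hq))

theorem rel_cent {H : Subgroup G} {z : G} (h : {y | ∃ g ∈ H, y = g * z * g⁻¹}.Finite) :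
    (Subgroup.centralizer {z}).relIndex H ≠ 0 := by
  refine Subgroup.index_ne_zero_iff_finite.2 ?_
  have := h.to_subtype
  refine Finite.of_injective (β := {y | ∃ g ∈ H, y = g * z * g⁻¹})
    (fun q => ⟨(q.out : H) * z * ((q.out : H) : G)⁻¹, _, q.out.2, rfl⟩) fun q q' e => ?_
  rw [← QuotientGroup.out_eq' q, ← QuotientGroup.out_eq' q', QuotientGroup.eq,
    Subgroup.mem_subgroupOf, Subgroup.mem_centralizer_singleton_iff]
  have e1 : ((q.out : H) : G) * z * ((q.out : H) : G)⁻¹ =
    ((q'.out : H) : G) * z * ((q'.out : H) : G)⁻¹ := congrArg Subtype.val e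
  rw [Subgroup.coe_mul, Subgroup.coe_inv]
  generalize ((q.out : H) : G) = x at e1
  generalize ((q'.out : H) : G) = y at e1
  calc x⁻¹ * y * z = x⁻¹ * (y * z * y⁻¹) * y := by group
    _ = x⁻¹ * (x * z * x⁻¹) * y := by rw [e1]
    _ = z * (x⁻¹ * y) := by group

theorem rel_cent_fin {K H : Subgroup G} (hK : Finite K) (h : H ≤ Subgroup.normalizer K) :
    (Subgroup.centralizer (K : Set G)).relIndex H ≠ 0 := by
  have e : Subgroup.centralizer (K : Set G) = ⨅ k : K, Subgroup.centralizer {(k : G)} := by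
    ext g
    simp only [Subgroup.mem_iInf, Subgroup.mem_centralizer_iff, Set.mem_singleton_iff,
      forall_eq, Subtype.forall, SetLike.mem_coe]
  rw [e]
  refine Subgroup.relIndex_iInf_ne_zero fun k => rel_cent ((Set.toFinite (K : Set G)).subset ?_)
  rintro _ ⟨g, hg, rfl⟩
  exact (Subgroup.mem_normalizer_iff.1 (h hg) k).1 k.2

theorem definable_mid {K H : Subgroup G} (hK : Finite K)
    (h1 : Subgroup.centralizer (K : Set G) ≤ H) (h2 : H ≤ Subgroup.normalizer K) :
    IsDefinable (H : Set G) := by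
  refine definable_cover (rel_cent_fin hK h2) (S := Subgroup.centralizer (K : Set G))
    (fun _ h => h) h1 (fun h X _ v => ∀ k : K, FreeGroup.lift v
      (.of (.inl k) * ((FreeGroup.of (.inl h))⁻¹ * .of (.inr 0)) *
        ((FreeGroup.of (.inl h))⁻¹ * .of (.inr 0) * .of (.inl k))⁻¹) = 1)
    (fun h => FO.iInf fun k => FO.word _) fun h g => ?_
  simp only [SetLike.mem_coe, Subgroup.mem_centralizer_iff, map_mul, map_inv,
    FreeGroup.lift_apply_of, Sum.elim_inl, Sum.elim_inr, id, mul_inv_eq_one, Subtype.forall]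

theorem definable_pow {H : Subgroup G} {c z : G} {M : ℕ}
    (hD : (Subgroup.zpowers (c ^ M)).relIndex H ≠ 0) (hc : Commute c z)
    (h : ∀ f, Commute f z → f ^ M ∈ H) : IsDefinable (H : Set G) := by
  refine definable_cover hD (S := {g | ∃ f, Commute f z ∧ g = f ^ M}) ?_ ?_
    (fun h X _ v => ∃ g : X, (fun (X : Type) [Group X] (v : (G ⊕ Fin 1) ⊕ Unit → X) =>
      FreeGroup.lift v (.of (.inr ()) * .of (.inl (.inl z)) *
        (FreeGroup.of (.inl (.inl z)) * .of (.inr ()))⁻¹) = 1 ∧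
      FreeGroup.lift v ((FreeGroup.of (.inl (.inl h)))⁻¹ * .of (.inl (.inr 0)) *
        (FreeGroup.of (.inr ()) ^ M)⁻¹) = 1) X (Sum.elim v fun _ => g))
    (fun h => FO.ex ((FO.word _).and (FO.word _))) fun h g => ?_
  · rintro _ ⟨k, rfl⟩
    refine ⟨c ^ k, hc.zpow_left k, ?_⟩
    beta_reduce
    rw [← zpow_natCast, ← zpow_natCast, ← zpow_mul, ← zpow_mul, mul_comm]
  · rintro _ ⟨f, hf, rfl⟩
    exact h f hf
  · simp only [Set.mem_ofPred_eq, map_mul, map_inv, map_pow, FreeGroup.lift_apply_of,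
      Sum.elim_inl, Sum.elim_inr, id, mul_inv_eq_one, commute_iff_eq]

/-- the extension by a letter commuting with `K` -/
abbrev Hnn (K : Subgroup G) : Type := HNNExtension G K K (MulEquiv.refl K)

theorem transfer_t {K : Subgroup G} (hK : Finite K)
    (he : IsElementary (HNNExtension.of : G →* Hnn K)) {J : Type} [Finite J]
    (w : J → FreeGroup (G ⊕ Unit))
    (h : ∀ g ∈ Subgroup.centralizer (K : Set G),
      ∃ j, FreeGroup.lift (Sum.elim id fun _ => g) (w j) = 1) :
    ∃ j, FreeGroup.lift (Sum.elim (HNNExtension.of : G →* Hnn K) fun _ => HNNExtension.t)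
      (w j) = 1 := by
  have k := (FO.all ((FO.iInf fun k : K => FO.word (α := G ⊕ Unit)
    (.of (.inl k) * .of (.inr ()) * (FreeGroup.of (.inr ()) * .of (.inl k))⁻¹)).imp
      (FO.iSup fun j => FO.word (w j)))).transfer he id
  refine k.2 (fun g hg => h g fun x hx => ?_) HNNExtension.t fun x => ?_
  · simpa only [map_mul, map_inv, FreeGroup.lift_apply_of, Sum.elim_inl, Sum.elim_inr, id,
      mul_inv_eq_one] using hg ⟨x, hx⟩
  · simp only [map_mul, map_inv, FreeGroup.lift_apply_of, Sum.elim_inl, Sum.elim_inr,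
      mul_inv_eq_one]
    exact (HNNExtension.t_mul_of (φ := MulEquiv.refl K) x).symm

open Classical in
/-- the shift on the fibre over the base coset -/
noncomputable def sh (K : Subgroup G) : Equiv.Perm ((G ⧸ K) × ℤ) :=
  Equiv.prodCongrRight fun q => Equiv.addRight (if q = ((1 : G) : G ⧸ K) then 1 else 0)

/-- the action on the first coordinate -/
def ac (K : Subgroup G) : G →* Equiv.Perm ((G ⧸ K) × ℤ) where
  toFun g := Equiv.prodCongr (MulAction.toPerm g) (Equiv.refl ℤ)
  map_one' := by ext <;> simp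
  map_mul' g h := by ext <;> simp [mul_smul]

theorem ac_apply (K : Subgroup G) (g : G) (q : G ⧸ K) (n : ℤ) : ac K g (q, n) = (g • q, n) := rfl

theorem smul_one_iff (K : Subgroup G) (g : G) :
    g • ((1 : G) : G ⧸ K) = ((1 : G) : G ⧸ K) ↔ g ∈ K := by
  rw [MulAction.Quotient.smul_mk, smul_eq_mul, mul_one, eq_comm, QuotientGroup.eq, inv_one,
    one_mul]

theorem sh_pow (K : Subgroup G) (m : ℕ) (q : G ⧸ K) (n : ℤ) :
    (q = ((1 : G) : G ⧸ K) → (sh K ^ m) (q, n) = (q, n + m)) ∧
      (q ≠ ((1 : G) : G ⧸ K) → (sh K ^ m) (q, n) = (q, n)) := by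
  induction m with
  | zero => simp
  | succ m ih =>
    rw [pow_succ', Equiv.Perm.mul_apply]
    refine ⟨fun h => ?_, fun h => ?_⟩
    · rw [ih.1 h]
      simp [sh, h, add_assoc]
    · rw [ih.2 h]
      simp [sh, h]

/-- the permutation representation of the extension -/
noncomputable def rep (K : Subgroup G) : Hnn K →* Equiv.Perm ((G ⧸ K) × ℤ) :=
  HNNExtension.lift (ac K) (sh K) fun k => by
    ext1 ⟨q, n⟩
    have e : (k : G) • q = ((1 : G) : G ⧸ K) ↔ q = ((1 : G) : G ⧸ K) := by
      conv_lhs => rw [← (smul_one_iff K k).2 k.2]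
      exact smul_left_cancel_iff _
    simp only [Equiv.Perm.mul_apply, MulEquiv.refl_apply, ac_apply, sh,
      Equiv.prodCongrRight_apply]
    by_cases hq : q = ((1 : G) : G ⧸ K)
    · rw [if_pos hq, if_pos (e.2 hq)]
    · rw [if_neg hq, if_neg fun h => hq (e.1 h)]

theorem conj_t {K : Subgroup G} {m : ℕ} (hm : m ≠ 0) {d d' : G}
    (h : (HNNExtension.t : Hnn K) ^ m * HNNExtension.of d =
      HNNExtension.of d' * HNNExtension.t ^ m) : d ∈ K := by
  by_contra hd
  have e := congrArg (fun x => (rep K x (((1 : G) : G ⧸ K), 0)).2) h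
  simp only [rep, map_mul, map_pow, HNNExtension.lift_t, HNNExtension.lift_of,
    Equiv.Perm.mul_apply, ac_apply] at e
  rw [(sh_pow K m _ 0).2 fun h => hd ((smul_one_iff K d).1 h), (sh_pow K m _ 0).1 rfl,
    ac_apply] at e
  exact hm (by exact_mod_cast (by simpa using e.symm : (m : ℤ) = 0))

theorem t_pow_ne {K : Subgroup G} {m : ℕ} (hm : m ≠ 0) : (HNNExtension.t : Hnn K) ^ m ≠ 1 := by
  intro h
  have e := congrArg (fun x => (rep K x (((1 : G) : G ⧸ K), 0)).2) h
  simp only [rep, map_pow, HNNExtension.lift_t, map_one, Equiv.Perm.one_apply] at e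
  rw [(sh_pow K m _ 0).1 rfl] at e
  exact hm (by exact_mod_cast (by simpa using e : (m : ℤ) = 0))

/-- an elementary extension by a letter is legal -/
theorem legal_of_elementary {K : Subgroup G} (hK : Finite K)
    (he : IsElementary (HNNExtension.of : G →* Hnn K)) :
    ¬ VirtCyclic (Subgroup.normalizer (K : Set G)) ∧ ∀ R : Subgroup G, Finite R →
      Subgroup.normalizer (K : Set G) ≤ Subgroup.normalizer (R : Set G) → R ≤ K := by
  have hCN : Subgroup.centralizer (K : Set G) ≤ Subgroup.normalizer (K : Set G) :=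
    Subgroup.centralizer_le_normalizer _
  refine ⟨?_, fun R hR hn r hr => ?_⟩
  · rintro ⟨c, hc, hi⟩
    set m := ((Subgroup.zpowers c).relIndex (Subgroup.normalizer (K : Set G))).factorial
    have hm : m ≠ 0 := Nat.factorial_ne_zero _
    have h1 : ∀ g ∈ Subgroup.centralizer (K : Set G), g ^ m ∈ Subgroup.zpowers c := fun g hg =>
      (Subgroup.pow_mem_of_relIndex_ne_zero_of_dvd hi (hCN hg)
        fun _ h0 h => Nat.dvd_factorial h0 h).1
    by_cases hf : IsOfFinOrder c
    · obtain ⟨n, hn, e⟩ := isOfFinOrder_iff_pow_eq_one.1 hf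
      obtain ⟨_, k⟩ := transfer_t hK he (J := Unit) (fun _ => .of (.inr ()) ^ (m * n))
        fun g hg => ⟨(), by
          obtain ⟨z, hz⟩ := h1 g hg
          simp only [map_pow, FreeGroup.lift_apply_of, Sum.elim_inr] at hz ⊢
          rw [pow_mul, ← hz, ← zpow_natCast, ← zpow_mul, mul_comm, zpow_mul, zpow_natCast, e,
            one_zpow]⟩
      simp only [map_pow, FreeGroup.lift_apply_of, Sum.elim_inr] at k
      exact t_pow_ne (mul_ne_zero hm hn.ne') k
    · obtain ⟨_, k⟩ := transfer_t hK he (J := Unit) (fun _ => .of (.inr ()) ^ m * .of (.inl c) *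
        (FreeGroup.of (.inl c) * .of (.inr ()) ^ m)⁻¹) fun g hg => ⟨(), by
          obtain ⟨z, hz⟩ := h1 g hg
          simp only [map_mul, map_inv, map_pow, FreeGroup.lift_apply_of, Sum.elim_inr,
            Sum.elim_inl, id, mul_inv_eq_one] at hz ⊢
          rw [← hz]
          exact (Commute.zpow_self c z).eq⟩
      simp only [map_mul, map_inv, map_pow, FreeGroup.lift_apply_of, Sum.elim_inr,
        Sum.elim_inl, mul_inv_eq_one] at k
      exact hf (K.subtype.isOfFinOrder (isOfFinOrder_of_finite (⟨c, conj_t hm k⟩ : K)))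
  · obtain ⟨r', k⟩ := transfer_t hK he (J := R) (fun r' => .of (.inr ()) * .of (.inl r) *
      (FreeGroup.of (.inl r') * .of (.inr ()))⁻¹) fun g hg =>
        ⟨⟨g * r * g⁻¹, (Subgroup.mem_normalizer_iff.1 (hn (hCN hg)) r).1 hr⟩, by simp⟩
    simp only [map_mul, map_inv, FreeGroup.lift_apply_of, Sum.elim_inr,
      Sum.elim_inl, mul_inv_eq_one] at k
    exact conj_t (m := 1) (d' := r') one_ne_zero (by simpa using k)

end Fo

end Pool.Agent.P.MP_dba3d2_lc
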