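import Pool.Agent.P.MP_dba3d2_lcT.Let
import Pool.Agent.P.MP_dba3d2_lcT.Log

/-! Elementary and non-elementary subgroups of a hyperbolic group. -/

namespace Pool.Agent.P.MP_dba3d2_lc

open Filter

namespace Fo

variable {Γ : HG}

theorem rel_zp {c : Γ.G} (hc : ¬ IsOfFinOrder c) :
    (Subgroup.zpowers c).relIndex (Subgroup.centralizer {c ^ Γ.e}) ≠ 0 := by
  obtain ⟨hfin, ψ, hψ⟩ := all_A_PSI Γ.toHG0 _ (Geo0.pow_inf hc Γ.good.pos.ne')
  let c0 : Subgroup.centralizer {c ^ Γ.e} :=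
    ⟨c, Subgroup.mem_centralizer_singleton_iff.2 (Commute.self_pow c _).eq⟩
  have hn : (ψ c0).toAdd ≠ 0 := fun h => hc ((hψ c0).1 h)
  have hker : {f | ψ f = 1}.Finite :=
    (hfin.preimage Subtype.val_injective.injOn).subset fun f hf =>
      ⟨Subgroup.mem_centralizer_singleton_iff.1 f.2, (hψ f).1 hf⟩
  have hS : ((fun f => (ψ f).toAdd) ⁻¹' Set.Ico 0 |(ψ c0).toAdd|).Finite := by
    refine (Set.finite_Ico _ _).preimage' fun b _ => ?_
    rcases ((fun f => (ψ f).toAdd) ⁻¹' {b}).eq_empty_or_nonempty with h | ⟨f0, h0⟩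
    · rw [h]
      exact Set.finite_empty
    · refine (hker.image (f0 * ·)).subset fun f hf => ⟨f0⁻¹ * f, ?_, mul_inv_cancel_left _ _⟩
      have e : ψ f0 = ψ f := Multiplicative.toAdd.injective (h0.trans hf.symm)
      rw [Set.mem_ofPred_eq, map_mul, map_inv, e, inv_mul_cancel]
  refine Subgroup.index_ne_zero_iff_finite.2 (Set.finite_univ_iff.1
    ((hS.image QuotientGroup.mk).subset fun q _ => ?_))
  obtain ⟨f, rfl⟩ := QuotientGroup.mk_surjective q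
  refine ⟨f * c0 ^ (-((ψ f).toAdd / (ψ c0).toAdd)), ?_, ?_⟩
  · have e : (ψ (f * c0 ^ (-((ψ f).toAdd / (ψ c0).toAdd)))).toAdd =
        (ψ f).toAdd % (ψ c0).toAdd := by
      rw [map_mul, map_zpow, toAdd_mul, toAdd_zpow, Int.emod_def, smul_eq_mul]
      ring
    rw [Set.mem_preimage, e]
    exact ⟨Int.emod_nonneg _ hn, Int.emod_lt_abs _ hn⟩
  · rw [eq_comm, QuotientGroup.eq, inv_mul_cancel_left, Subgroup.mem_subgroupOf]
    exact ⟨_, rfl⟩

theorem conj_inf {G : Type} [Group G] {x : G} (hx : ¬ IsOfFinOrder x) (g : G) :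
    ¬ IsOfFinOrder (g * x * g⁻¹) := fun h =>
  hx (by simpa [mul_assoc] using (MulAut.conj g⁻¹).toMonoidHom.isOfFinOrder h)

theorem two_of {H : Subgroup Γ.G} (h : ¬ VirtCyclic H) : ∃ x ∈ H, ∃ y ∈ H,
    ¬ IsOfFinOrder x ∧ ¬ IsOfFinOrder y ∧ ¬ Commute (x ^ Γ.e) (y ^ Γ.e) := by
  by_contra hn
  refine h ?_
  by_cases ht : ∀ x ∈ H, IsOfFinOrder x
  · have h1 := (all_TORS Γ Stab0.amb (H.map (cst Γ _)) (by
      rintro _ ⟨x, hx, rfl⟩
      exact (cst Γ _).isOfFinOrder (ht x hx))).1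
    have h2 : Finite H :=
      Finite.of_equiv _ (H.equivMapOfInjective (cst Γ Stab0.amb) cst_injective).toEquiv.symm
    refine ⟨1, H.one_mem, ?_⟩
    rw [Subgroup.zpowers_one_eq_bot, Subgroup.relIndex_bot_left]
    exact Nat.card_pos.ne'
  push Not at ht
  obtain ⟨x, hxH, hx⟩ := ht
  refine ⟨x, hxH, Subgroup.relIndex_ne_zero_trans (rel_zp hx) (rel_cent
    ((Set.toFinite {x ^ Γ.e, (x ^ Γ.e)⁻¹}).subset ?_))⟩
  rintro _ ⟨g, hg, rfl⟩
  refine (all_A_EL0 Γ x hx).2.2 g ?_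
  have h1 : Commute (x ^ Γ.e) ((g * x * g⁻¹) ^ Γ.e) := by
    by_contra h
    exact hn ⟨x, hxH, _, H.mul_mem (H.mul_mem hg hxH) (H.inv_mem hg), hx, conj_inf hx g, h⟩
  exact (A_alph.ep1 hx _).1 ((Geo0.ep0 (conj_inf hx g) (Geo0.pow_inf hx Γ.good.pos.ne') h1 _).2
    (Commute.self_pow _ _))

theorem ep_pow {v : Γ.G} (hv : ¬ IsOfFinOrder v) {n : ℕ} (hn : 0 < n) (g : Γ.G) :
    Commute g ((v ^ n) ^ Γ.e) ↔ Commute g (v ^ Γ.e) :=
  Geo0.ep0 hv (Geo0.pow_inf hv hn.ne') (Commute.pow_pow_self _ _ _) g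

theorem r0_fin {H : Subgroup Γ.G} (h : ¬ VirtCyclic H) : Finite (A_alph.R0 Γ H) := by
  obtain ⟨x, hxH, y, hyH, hx, hy, hxy⟩ := two_of h
  exact (fin_two hx hy hxy).subset fun f hf => ⟨hf x hxH hx, hf y hyH hy⟩

theorem r0_norm (H : Subgroup Γ.G) : H ≤ Subgroup.normalizer (A_alph.R0 Γ H : Set Γ.G) :=
  fun g hg => Subgroup.mem_normalizer_iff.2 fun r => ⟨A_alph.R0_norm Γ H g hg r, fun hr => by
    simpa [mul_assoc] using A_alph.R0_norm Γ H g⁻¹ (H.inv_mem hg) _ hr⟩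

theorem leg {H K : Subgroup Γ.G} (h : ¬ VirtCyclic H) (hK : Finite K)
    (hn : H ≤ Subgroup.normalizer K) (h0 : A_alph.R0 Γ H ≤ K) :
    Leg Γ (Subgroup.centralizer (K : Set Γ.G) ⊓ H) K := by
  obtain ⟨x, hxH, y, hyH, hx, hy, hxy⟩ := two_of h
  have hp := fun v (hv : v ∈ H) =>
    Subgroup.exists_pow_mem_of_relIndex_ne_zero (rel_cent_fin hK hn) hv
  obtain ⟨n, n0, -, n1⟩ := hp x hxH
  obtain ⟨m, m0, -, m1⟩ := hp y hyH
  refine ⟨hK, inf_le_left, ⟨_, n1, _, m1, Geo0.pow_inf hx n0.ne', Geo0.pow_inf hy m0.ne',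
    fun e => hxy ((ep_pow hx n0 _).1 ((ep_pow hy m0 _).1 e).symm).symm⟩,
    fun g hg => h0 fun v hv hi => ?_⟩
  obtain ⟨k, k0, -, k1⟩ := hp v hv
  exact (ep_pow hi k0 g).1 (hg _ k1 (Geo0.pow_inf hi k0.ne'))

theorem definable_vc {H : Subgroup Γ.G} (h : VirtCyclic H) : IsDefinable (H : Set Γ.G) := by
  obtain ⟨c, hcH, hi⟩ := h
  by_cases hc : IsOfFinOrder c
  · have h1 : Finite (Subgroup.zpowers c) := finite_zpowers.2 hc
    refine definable_cover (D := ⊥) (Subgroup.relIndex_ne_zero_trans (by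
      rw [Subgroup.relIndex_bot_left]
      exact Nat.card_pos.ne') hi) (S := {1}) (fun g hg => hg) (fun g hg => hg ▸ H.one_mem)
      (fun h X _ v => FreeGroup.lift v ((FreeGroup.of (.inl h))⁻¹ * .of (.inr 0)) = 1)
      (fun h => FO.word _) fun h g => ?_
    simp only [Set.mem_singleton_iff, map_mul, map_inv, FreeGroup.lift_apply_of, Sum.elim_inl,
      Sum.elim_inr, id]
  · set M := ((Subgroup.zpowers c).relIndex (Subgroup.centralizer {c ^ Γ.e})).factorial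
    have hM : M ≠ 0 := Nat.factorial_ne_zero _
    refine definable_pow (c := c) (z := c ^ Γ.e) (M := M) (Subgroup.relIndex_ne_zero_trans
      (fun e => rel_zp (Geo0.pow_inf hc hM) (Subgroup.relIndex_eq_zero_of_le_right ?_ e)) hi)
      (Commute.self_pow _ _) fun f hf => Subgroup.zpowers_le.2 hcH
        (Subgroup.pow_mem_of_relIndex_ne_zero_of_dvd (rel_zp hc)
          (Subgroup.mem_centralizer_singleton_iff.2 hf.eq) fun _ h0 h => Nat.dvd_factorial h0 h).1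
    rw [Subgroup.zpowers_le, Subgroup.mem_centralizer_singleton_iff]
    exact ((Commute.self_pow c M).pow_right _).eq

end Fo

end Pool.Agent.P.MP_dba3d2_lc
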