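import Pool.Agent.P.MP_dba3d2_lcM.All

/-! Generic letters chosen inside a prescribed subgroup. -/

namespace Pool.Agent.P.MP_dba3d2_lc

open Filter MP_4b59b0_al

namespace Fo

/-- `K` is the largest finite subgroup attached to the non-elementary subgroup `Z` -/
def Leg (Γ : HG) (Z K : Subgroup Γ.G) : Prop :=
  Finite K ∧ Z ≤ Subgroup.centralizer (K : Set Γ.G) ∧
  (∃ x ∈ Z, ∃ y ∈ Z, ¬ IsOfFinOrder x ∧ ¬ IsOfFinOrder y ∧ ¬ Commute (x ^ Γ.e) (y ^ Γ.e)) ∧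
  A_alph.R0 Γ Z ≤ K

theorem fin_two {Γ : HG} {x y : Γ.G} (hx : ¬ IsOfFinOrder x) (hy : ¬ IsOfFinOrder y)
    (hxy : ¬ Commute (x ^ Γ.e) (y ^ Γ.e)) :
    {f : Γ.G | Commute f (x ^ Γ.e) ∧ Commute f (y ^ Γ.e)}.Finite := by
  refine (all_A_PSI Γ.toHG0 _ (Geo0.pow_inf hx Γ.good.pos.ne')).1.subset fun f hf => ⟨hf.1, ?_⟩
  by_contra h
  exact hxy ((Geo0.ep0 hy h hf.2 _).1 ((Geo0.ep0 hx h hf.1 _).2 (Commute.refl _)))

open A_alph in
theorem alph (Γ : HG) (Z K : Subgroup Γ.G) (hL : Leg Γ Z K) : ∃ (y : ℕ → Γ.G) (s : ℕ),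
    (∀ t, y t ∈ Z) ∧
    (Set.range y).Finite ∧ (∀ t, ¬ IsOfFinOrder (y t)) ∧ (∀ t, ∀ k ∈ K, Commute (y t) k) ∧
    (∀ t k, Commute k (y t ^ Γ.e) → Commute k (y t)) ∧ (∀ t, ¬ Commute (y t) (y (t + 1))) ∧
    ∀ t0 k, (∀ v < s, Commute k (y (t0 + v))) → k ∈ K := by
  classical
  obtain ⟨-, hZ, ⟨x, hxZ, y, hyZ, hx, hy, hxy⟩, hR0⟩ := hL
  have he := Γ.good.pos.ne'
  have hF := fin_two hx hy hxy
  have hw : ∀ f : Γ.G, ∃ w ∈ Z, ¬ IsOfFinOrder w ∧
      ¬ Commute (x ^ Γ.e) (w ^ Γ.e) ∧ (f ∈ K → w = y) ∧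
      (Commute f (x ^ Γ.e) → Commute f (w ^ Γ.e) → f ∈ K) := by
    intro f
    by_cases h1 : f ∈ K
    · exact ⟨y, hyZ, hy, hxy, fun _ => rfl, fun _ _ => h1⟩
    by_cases h2 : Commute f (x ^ Γ.e)
    · have h3 : ¬ ∀ v ∈ Z, ¬ IsOfFinOrder v →
          Commute f (v ^ Γ.e) := fun h => h1 (hR0 h)
      push Not at h3
      obtain ⟨v, h4, h5, h6⟩ := h3
      refine ⟨v, h4, h5, fun h => h6 ?_, fun h => (h1 h).elim, fun _ h => (h6 h).elim⟩
      exact (Geo0.ep0 h5 (Geo0.pow_inf hx he) h f).1 ((ep1 hx f).2 h2)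
    · exact ⟨y, hyZ, hy, hxy, fun _ => rfl, fun h => (h2 h).elim⟩
  choose w w1 w2 w3 w4 w5 using hw
  obtain ⟨n, φ, -, hφ⟩ := hF.fin_param
  have h1 : (1 : Γ.G) ∈ Set.range φ := by
    rw [hφ]; exact ⟨Commute.one_left _, Commute.one_left _⟩
  obtain ⟨j₀, hj₀⟩ := h1
  have hn : 0 < n := j₀.pos
  let c : ℕ → Γ.G := fun t => if t % 2 = 0 then x else w (φ ⟨t / 2 % n, Nat.mod_lt _ hn⟩)
  have c1 : ∀ t, c t ∈ Z ∧ ¬ IsOfFinOrder (c t) := by
    intro t
    simp only [c]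
    split_ifs
    · exact ⟨hxZ, hx⟩
    · exact ⟨w1 _, w2 _⟩
  refine ⟨fun t => c t ^ Γ.e, 2 * n + 2, fun t => Z.pow_mem (c1 t).1 _, ?_, fun t => Geo0.pow_inf (c1 t).2 he, fun t k hk => ?_,
    fun t k h => (ep1 (c1 t).2 k).1 h, fun t => ?_, fun t0 k hk => ?_⟩
  · refine ((Set.finite_range fun j => w (φ j) ^ Γ.e).insert (x ^ Γ.e)).subset ?_
    rintro _ ⟨t, rfl⟩
    simp only [c]
    split_ifs
    · exact Set.mem_insert _ _
    · exact Set.mem_insert_of_mem _ ⟨_, rfl⟩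
  · exact (Commute.symm (hZ (c1 t).1 k hk)).pow_left _
  · simp only [c]
    by_cases h : t % 2 = 0
    · rw [if_pos h, if_neg (by omega)]
      exact w3 _
    · rw [if_neg h, if_pos (by omega)]
      exact fun h => w3 _ h.symm
  · have k1 : Commute k (x ^ Γ.e) := by
      have := hk (t0 % 2) (by omega)
      simp only [c] at this
      rwa [if_pos (by omega)] at this
    have k2 : ∀ j, Commute k (w (φ j) ^ Γ.e) := by
      intro j
      obtain ⟨u, u1, u2, u3⟩ := exists_mod (t0 / 2) n j j.2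
      have := hk (2 * u + 1 - t0) (by omega)
      simp only [c] at this
      rw [if_neg (by omega)] at this
      have e : (⟨(t0 + (2 * u + 1 - t0)) / 2 % n, Nat.mod_lt _ hn⟩ : Fin n) = j := by
        apply Fin.ext
        show (t0 + (2 * u + 1 - t0)) / 2 % n = j
        rw [show (t0 + (2 * u + 1 - t0)) / 2 = u by omega, u3]
      rwa [e] at this
    have k3 : k ∈ Set.range φ := by
      rw [hφ]
      refine ⟨k1, ?_⟩
      have := k2 j₀
      rwa [hj₀, w4 1 K.one_mem] at this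
    obtain ⟨j, rfl⟩ := k3
    exact w5 _ k1 (k2 j)

open A_pre in
theorem pth_mem {G : Type} [Group G] {Z : Subgroup G} {y : ℕ → G} (h : ∀ t, y t ∈ Z) (a : ℕ → ℕ) :
    ∀ t, pth y a t ∈ Z
  | 0 => Z.one_mem
  | t + 1 => Z.mul_mem (pth_mem h a t) (Z.pow_mem (h t) _)

open A_pre in
theorem pre (Γ : HG) (r : ℕ) (Z K : Fin r → Subgroup Γ.G) (hK : ∀ i, Leg Γ (Z i) (K i)) :
    ∃ (c T s : ℕ) (P h : Fin r → (ℕ → ℕ) → ℕ → Γ.G), (∀ i l t, P i l t ∈ Z i) ∧
    (∀ i l, P i l 0 = 1) ∧ (∀ i l t, ∀ k ∈ K i, Commute (P i l t) k) ∧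
    (∀ i l t, l t ≤ Γ.sp.d (P i l t) (P i l (t + 1)) ∧
      Γ.sp.d (P i l t) (P i l (t + 1)) ≤ l t + T) ∧
    (∀ i l L U n, c ≤ L → (∀ t < n, L ≤ l t ∧ l t ≤ U) →
      PCh Γ c T L (U + T) n (P i l) (h i l)) ∧
    ∀ i l t0 g, (∀ v < s, Commute g (h i l (t0 + v) ^ Γ.e)) → g ∈ K i := by
  choose y s h0 h1 h2 h3 h4 h5 h6 using fun i => alph Γ (Z i) (K i) (hK i)
  choose a ha using expo Γ
  have hC : ∀ q : Γ.G × Γ.G, ∃ C : ℕ, ¬ IsOfFinOrder q.2 → ¬ Commute q.1 (q.2 ^ Γ.e) →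
      ∀ m n : ℕ, Γ.len (q.1 ^ m) + Γ.len (q.2 ^ n) ≤ Γ.len (q.1 ^ m * q.2 ^ n) + C := fun q => by
    by_cases e : ¬ IsOfFinOrder q.2 ∧ ¬ Commute q.1 (q.2 ^ Γ.e)
    · obtain ⟨C, hC⟩ := all_A_IND Γ q.1 q.2 e.1 e.2
      exact ⟨C, fun _ _ => hC⟩
    · exact ⟨0, fun b c => absurd ⟨b, c⟩ e⟩
  choose C hC using hC
  have hU : (⋃ i, Set.range (y i)).Finite := Set.finite_iUnion h1
  have hm : ∀ i t, y i t ∈ ⋃ i, Set.range (y i) := fun i t => Set.mem_iUnion.2 ⟨i, t, rfl⟩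
  obtain ⟨T, hT⟩ := (hU.image Γ.len).bddAbove
  obtain ⟨c, hc⟩ := ((hU.prod hU).image C).bddAbove
  have hT' : ∀ i t, Γ.len (y i t) ≤ T := fun i t => hT ⟨_, hm i t, rfl⟩
  have hd : ∀ i (l : ℕ → ℕ) t, l t ≤ Γ.len (y i t ^ a (y i t) (l t)) ∧
      Γ.len (y i t ^ a (y i t) (l t)) ≤ l t + T := fun i l t => by
    have := ha (y i t) (l t) (h2 i t)
    have := hT' i t
    omega
  refine ⟨c + 2 * (2 * Γ.δ) + 1, T, ∑ i, s i, fun i l => pth (y i) fun t => a (y i t) (l t),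
    fun i l t => pth (y i) (fun t => a (y i t) (l t)) t * y i t *
      (pth (y i) (fun t => a (y i t) (l t)) t)⁻¹, fun i l t => pth_mem (h0 i) _ t,
    fun _ _ => rfl,
    fun i l t k hk => pth_comm (fun t => h3 i t k hk) _ t, fun i l t => ?_,
    fun i l L U n hL hl => ⟨fun u v w b1 b2 b3 => ?_, fun t ht => ?_, fun t ht => ?_,
      fun t _ e => ?_, fun t _ => ⟨?_, ?_⟩, fun t _ e => ?_⟩, fun i l t0 g hg => ?_⟩
  · rw [d_step]
    exact hd i l t
  · refine (Geo0.chain (c := c) Γ.hyp' (fun t _ => ?_) (fun t ht => ?_) b1 b2 b3).mono (by omega)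
    · have e1 := hC (y i t, y i (t + 1)) (h2 i _) (fun e => h5 i t (h4 i _ _ e))
        (a (y i t) (l t)) (a (y i (t + 1)) (l (t + 1)))
      have e2 : C (y i t, y i (t + 1)) ≤ c := hc ⟨_, ⟨hm i t, hm i (t + 1)⟩, rfl⟩
      unfold Sp.Bt
      rw [d_step, d_step, d_two]
      exact e1.trans (Nat.add_le_add_left e2 _)
    · have := hd i l t
      have := hl t ht
      rw [d_step]
      omega
  · rw [d_step]
    exact (hl t ht).1.trans (hd i l t).1
  · rw [d_step]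
    exact (hd i l t).2.trans (Nat.add_le_add_right (hl t ht).2 _)
  · exact h2 i t (by
      simpa [mul_assoc] using
        (MulAut.conj (pth (y i) (fun t => a (y i t) (l t)) t)).symm.toMonoidHom.isOfFinOrder e)
  · rw [d_mv]
    exact hT' i t
  · beta_reduce
    rw [shift, d_mv]
    exact hT' i t
  · beta_reduce at e
    rw [shift (y i) _ t, conj_pow, cj] at e
    refine h5 i t (h4 i t _ ?_).symm
    simpa [mul_assoc] using e
  · have hk := h6 i t0 _ fun v hv => last (h4 i) hg v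
      (hv.trans_le (Finset.single_le_sum (fun _ _ => Nat.zero_le _) (Finset.mem_univ i)))
    have e := (pth_comm (fun t => h3 i t _ hk) (fun t => a (y i t) (l t)) t0).eq
    rw [← mul_assoc, mul_inv_cancel_left, mul_left_inj] at e
    exact e ▸ hk

theorem bw (Γ : HG) (r : ℕ) (Z K : Fin r → Subgroup Γ.G) (hK : ∀ i, Leg Γ (Z i) (K i)) :
    ∃ (C : ℕ) (P : Fin r → (ℕ → ℕ) → ℕ → Γ.G), (∀ i l t, P i l t ∈ Z i) ∧
    (∀ i l n, ∀ k ∈ K i, Commute (P i l n) k) ∧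
    (∀ i l n, (∀ t < n, C ≤ l t) → ∑ t ∈ Finset.range n, l t ≤ Γ.len (P i l n) + C * n ∧
      Γ.len (P i l n) ≤ ∑ t ∈ Finset.range n, l t + C * n) ∧
    ∀ i j l l' n n' U D g p q, (∀ t < n, C ≤ l t ∧ l t ≤ U) → (∀ t < n', C ≤ l' t ∧ l' t ≤ U) →
      Γ.sp.Bt D 1 p (P i l n) → Γ.sp.Bt D 1 q (P i l n) →
      Γ.sp.Bt D g p (g * P j l' n') → Γ.sp.Bt D g q (g * P j l' n') →
      C * (U + D + 1) ≤ Γ.sp.d p q →
      (∃ t < n, ∃ t' < n', l t ≤ l' t' + C ∧ l' t' ≤ l t + C) ∧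
      (i = j → l = l' → (∀ t t', l t ≤ l t' + C → l t' ≤ l t + C → t = t') → g ∈ K i) := by
  obtain ⟨c, T, s, P, h, p0, p1, p2, p3, p4, p5⟩ := pre Γ r Z K hK
  obtain ⟨C1, hM⟩ := all_A_MATCH Γ c T (s + 2)
  obtain ⟨C0, hC⟩ := all_A_CE0 Γ
  obtain ⟨C, hc, h1, h0, hT⟩ : ∃ C, c ≤ C ∧ C1 * (T + 1) ≤ C ∧ C0 * (C1 + T + 1) ≤ C ∧
      T + 2 * C1 ≤ C :=
    ⟨c + C1 * (T + 1) + C0 * (C1 + T + 1) + T + 2 * C1, by omega, by omega, by omega, by omega⟩
  refine ⟨C, P, p0, p2, fun i l n hl => ?_, ?_⟩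
  · have H := p4 i l C (∑ t ∈ Finset.range n, l t) n hc fun t ht => ⟨hl t ht,
      Finset.single_le_sum (f := l) (fun _ _ => Nat.zero_le _) (Finset.mem_range.2 ht)⟩
    have key : ∀ m ≤ n, ∑ t ∈ Finset.range m, l t ≤ Γ.sp.d (P i l 0) (P i l m) + C * m ∧
        Γ.sp.d (P i l 0) (P i l m) ≤ ∑ t ∈ Finset.range m, l t + C * m := fun m hm => by
      induction m with
      | zero => simp [Γ.sp.d_self]
      | succ m ih =>
        have a1 := ih (by omega)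
        have a2 := H.bt 0 m (m + 1) (by omega) (by omega) hm
        have a3 := p3 i l m
        have a4 := Γ.sp.tri (P i l 0) (P i l m) (P i l (m + 1))
        unfold Sp.Bt at a2
        rw [Finset.sum_range_succ, mul_add, mul_one]
        omega
    have := key n le_rfl
    rwa [p1, Γ.d_one] at this
  intro i j l l' n n' U D g p q hl hl' b1 b2 b3 b4 hd
  have H := p4 i l C U n hc hl
  have e : ∀ a b, Γ.sp.d (g • P j l' a) (g • P j l' b) = Γ.sp.d (P j l' a) (P j l' b) :=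
    fun a b => Γ.iso g _ _
  obtain ⟨t, t', ht, hv⟩ := hM C (U + T) D n n' _ _ _ _ p q H ((p4 j l' C U n' hc hl').smul g)
    (by omega) (by rwa [p1]) (by rwa [p1]) (by simpa only [p1, smul_eq_mul, mul_one] using b3)
    (by simpa only [p1, smul_eq_mul, mul_one] using b4) (le_trans (by
      refine le_trans ?_ (Nat.mul_le_mul_right _ h1)
      rw [mul_assoc]
      exact Nat.mul_le_mul_left _ (by nlinarith [Nat.zero_le (T * U), Nat.zero_le (T * D)])) hd)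
  rcases hv with ⟨ht', hv⟩ | ⟨hs, ht', hv⟩
  · have k : l t ≤ l' t' + C ∧ l' t' ≤ l t + C := by
      have a1 := A_bw.near _ (hv 0 (by omega)) (hv 1 (by omega))
      have a2 := p3 i l t
      have a3 := p3 j l' t'
      simp only [e, add_zero] at a1
      omega
    refine ⟨⟨t, by omega, t', by omega, k⟩, fun hij hll hinj => ?_⟩
    subst hij hll
    obtain rfl := hinj t t' k.1 k.2
    refine p5 i l t g fun v hvs => ?_
    have m := H.mv (t + v) (by omega)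
    have a1 := hv v (by omega)
    have a2 := hv (v + 1) (by omega)
    exact hC (C1 + T) g _ (P i l (t + v)) (P i l (t + v + 1)) (H.inf _ (by omega))
      (a1.trans (by omega)) (le_trans a2 (by omega)) (m.1.trans (by omega))
      (m.2.trans (by omega)) (h0.trans (H.lo _ (by omega)))
  · have k : ∀ v a, v < 2 → t' = a + 1 + v → l (t + v) ≤ l' a + C ∧ l' a ≤ l (t + v) + C :=
      fun v a hv2 ha => by
      have a1 := A_bw.near _ (hv v (by omega)) (hv (v + 1) (by omega))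
      have a2 := p3 i l (t + v)
      have a3 := p3 j l' a
      have a4 := Γ.sp.symm (P j l' a) (P j l' (a + 1))
      simp only [e, show t' - v = a + 1 by omega, show t' - (v + 1) = a by omega,
        ← add_assoc] at a1
      omega
    have k0 := k 0 (t' - 1) (by omega) (by omega)
    have k1 := k 1 (t' - 2) (by omega) (by omega)
    refine ⟨⟨t + 0, by omega, t' - 1, by omega, k0⟩, fun hij hll hinj => ?_⟩
    subst hij hll
    have := hinj _ _ k0.1 k0.2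
    have := hinj _ _ k1.1 k1.2
    omega

open A_bw2 in
theorem bw2 (Γ : HG) (r : ℕ) (Z K : Fin r → Subgroup Γ.G) (hK : ∀ i, Leg Γ (Z i) (K i)) :
    ∃ C w, (∀ i b n, w i b n ∈ Z i) ∧ BWp Γ K C w := by
  obtain ⟨c, P, h0, h1, h2, h3⟩ := bw Γ r Z K hK
  have hC : (c + 1) * r + c ≤ (c + 1) * ((c + 1) * r + 1) := by
    rw [add_one_mul c ((c + 1) * r + 1), mul_add_one c]
    omega
  refine ⟨(c + 1) * ((c + 1) * r + 1), fun i b n => P i (lam c r i b) n, fun i b n => h0 i _ n,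
    fun i b n => h1 i _ n, fun i b n => ?_, fun i b n => ?_, ?_⟩
  · have e := (h2 i (lam c r i b) n fun t _ => c_le i.2).1
    have e1 := Finset.card_nsmul_le_sum (Finset.range n) (lam c r i b) b fun t _ => le_lam i.2
    rw [Finset.card_range, smul_eq_mul] at e1
    have e2 : c * n ≤ (c + 1) * ((c + 1) * r + 1) * n := Nat.mul_le_mul_right _ (by omega)
    exact (e1.trans e).trans (Nat.add_le_add_left e2 _)
  · have e := (h2 i (lam c r i b) n fun t _ => c_le i.2).2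
    have e1 := Finset.sum_le_card_nsmul (Finset.range n) (lam c r i b)
      (b + (c + 1) * r * (n + 1)) fun t ht => lam_le i.2 (Finset.mem_range.1 ht)
    rw [Finset.card_range, smul_eq_mul] at e1
    have e2 := Nat.mul_le_mul_right (n * (n + 1)) hC
    have e3 : c * n ≤ c * (n * (n + 1)) :=
      Nat.mul_le_mul_left _ (Nat.le_mul_of_pos_right _ (by omega))
    refine (e.trans (Nat.add_le_add_right e1 _)).trans ?_
    rw [mul_assoc _ n]
    nlinarith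
  · intro i j b b' n n' D g p q b1 b2 b3 b4 hd
    have m1 : (c + 1) * r * (n + 1) ≤ (c + 1) * r * (n + n' + 1) :=
      Nat.mul_le_mul_left _ (by omega)
    have m2 : (c + 1) * r * (n' + 1) ≤ (c + 1) * r * (n + n' + 1) :=
      Nat.mul_le_mul_left _ (by omega)
    obtain ⟨⟨t, ht, t', ht', a1, a2⟩, a3⟩ := h3 i j (lam c r i b) (lam c r j b') n n'
      (b + b' + (c + 1) * r * (n + n' + 1)) D g p q
      (fun t ht => ⟨c_le i.2, (lam_le i.2 ht).trans (by omega)⟩)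
      (fun t ht => ⟨c_le j.2, (lam_le j.2 ht).trans (by omega)⟩) b1 b2 b3 b4 (by
        refine le_trans ?_ hd
        have m3 : (c + 1) * r * (n + n' + 1) ≤ (c + 1) * r * (b + b' + n + n' + D + 1) :=
          Nat.mul_le_mul_left _ (by omega)
        rw [mul_assoc (c + 1) _ (b + b' + n + n' + D + 1)]
        refine Nat.mul_le_mul (by omega) ?_
        rw [add_one_mul ((c + 1) * r)]
        omega)
    obtain ⟨e1, e2, -⟩ := lam_inj i.2 j.2 a1 a2
    obtain rfl : i = j := Fin.ext e2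
    have m4 := Nat.mul_le_mul_right (n + 1) (le_of_add_le_left hC)
    have m5 := Nat.mul_le_mul_right (n' + 1) (le_of_add_le_left hC)
    have l1 := le_lam (c := c) (b := b) (t := t) i.2
    have l2 := le_lam (c := c) (b := b') (t := t') i.2
    have l3 := lam_le (c := c) (b := b) i.2 ht
    have l4 := lam_le (c := c) (b := b') i.2 ht'
    refine ⟨rfl, by omega, by omega, ?_⟩
    rintro rfl -
    exact a3 rfl rfl fun s s' u u' => (lam_inj i.2 i.2 u u').2.2 rfl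

theorem gmic (Γ : HG) (r : ℕ) (Z K : Fin r → Subgroup Γ.G) (hK : ∀ i, Leg Γ (Z i) (K i)) :
    ∃ (t : Fin r → ℕ → Γ.G) (τ : ℕ → ℝ), (∀ i n, t i n ∈ Z i) ∧ ∀ a : Amb,
    Big (a.mk' U0 fun n => (τ n : a.K)) ∧
    Letters (a := a.pow U0) (a.mk' U0 fun n => (τ n : a.K)) (std Γ (a.pow U0)) K
      fun i => a.mk' U0 fun n => cst Γ a (t i n) := by
  obtain ⟨C, w, h0, hw⟩ := bw2 Γ r Z K hK
  refine ⟨fun i n => w i n n, fun n => (n : ℝ) * n, fun i n => h0 i n n, fun a => ?_⟩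
  have e1 : (a.mk' U0 fun n : ℕ => (((n : ℝ) * n : ℝ) : a.K)) =
      Germ.ofFun fun p : (a.pow U0).I => (p.1 : ℝ) * p.1 :=
    Bas2A.mk_coe U0 fun (n : ℕ) (_ : a.I) => (n : ℝ) * n
  have e2 : (fun i => a.mk' U0 fun n => cst Γ a (w i n n)) =
      fun i => gw (a := a.pow U0) (w i) Prod.fst Prod.fst :=
    funext fun i => Bas2A.mk_coe U0 fun (n : ℕ) (_ : a.I) => w i n n
  rw [e1, e2]
  have hl : Ll (nK (a := a.pow U0) Prod.fst)
      (Germ.ofFun fun p : (a.pow U0).I => (p.1 : ℝ) * p.1) := fun N =>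
    Gmic.le_of a (fun n => (N : ℝ) * n) (fun n => (n : ℝ) * n) N fun n hn => by
      exact_mod_cast Nat.mul_le_mul_right n hn
  have hb : Big (K := (a.pow U0).K) (Germ.ofFun fun p : (a.pow U0).I => (p.1 : ℝ) * p.1) :=
    fun N => Gmic.le_of a (fun _ => (N : ℝ)) (fun n => (n : ℝ) * n) N fun n hn => by
      exact_mod_cast hn.trans (Nat.le_mul_self n)
  refine ⟨hb, all_A_BWM Γ r K C w hw (fun i => (hK i).1) (a.pow U0) _ (fun _ => Prod.fst) Prod.fst
    hb (fun _ => hl) hl fun i => ⟨⟨1 + 2 * C, ?_⟩, ⟨2, ?_⟩⟩⟩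
  · refine Gmic.le_of a (fun n => (Γ.len (w i n n) : ℝ))
      (fun n => ((1 + 2 * C : ℕ) : ℝ) * ((n : ℝ) * n)) 0 fun n _ => ?_
    have h1 := hw.hi i n n
    have h2 := Nat.mul_le_mul_left C (Nat.le_mul_self n)
    exact_mod_cast (by nlinarith : Γ.len (w i n n) ≤ (1 + 2 * C) * (n * n))
  · refine Gmic.le_of a (fun n => (n : ℝ) * n)
      (fun n => ((2 : ℕ) : ℝ) * (Γ.len (w i n n) : ℝ)) (2 * C) fun n hn => ?_
    have h1 := hw.lo i n n
    have h2 := Nat.mul_le_mul_right n hn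
    exact_mod_cast (by nlinarith : n * n ≤ 2 * Γ.len (w i n n))

end Fo

end Pool.Agent.P.MP_dba3d2_lc
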