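import Pool.Agent.P.MP_dba3d2_lcT.Geo

/-! Legal extensions are elementary; definable subgroups of hyperbolic groups. -/

namespace Pool.Agent.P.MP_dba3d2_lc

open Filter FirstOrder

namespace Fo

open Bas2A TrA

variable {Γ : HG} {b : Amb}

theorem st_all {ι κ : Type} [Finite ι] [Finite κ] (Q : (κ → Γ.G) → Prop) (g : κ → Option ι)
    (w : ι → MM Γ b) :
    St (fun z : ι → Γ.G => ∀ x, Q fun s => (g s).elim x z) w ↔
      ∀ y : MM Γ b, St Q fun s => (g s).elim y w := by
  obtain ⟨f, rfl⟩ := Bas2A.rep w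
  have e : ∀ y : b.I → Γ.G,
      St Q (fun s => (g s).elim (Germ.ofFun y : MM Γ b) fun i => Germ.ofFun (f i)) ↔
        ∀ᶠ j in (b.V : Filter b.I), Q fun s => (g s).elim (y j) fun i => f i j := fun y => by
    have e1 : (fun s => (g s).elim (Germ.ofFun y : MM Γ b) fun i => Germ.ofFun (f i)) =
        fun s => Germ.ofFun ((g s).elim y f) := funext fun s => by cases g s <;> rfl
    rw [e1, st_coe]
    exact eventually_congr (Eventually.of_forall fun j =>
      iff_of_eq (congrArg Q (funext fun s => by cases g s <;> rfl)))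
  rw [st_coe]
  constructor
  · intro h y
    induction y using Germ.inductionOn with | h y => ?_
    exact (e y).2 (h.mono fun j hj => hj _)
  · intro h
    by_contra hn
    have h1 := (Ultrafilter.eventually_not.2 hn).mono fun j hj => not_forall.1 hj
    obtain ⟨y, hy⟩ := h1.choice
    obtain ⟨j, h2, h3⟩ := (hy.and ((e y).1 (h _))).exists
    exact h2 h3

theorem key_all {ι κ : Type} [Finite ι] [Finite κ] {Q : (κ → Γ.G) → Prop} (hQ : Tr Q)
    (g : κ → Option ι) {T : Subgroup (MM Γ b)} (hT : GC T) (w : ι → MM Γ b) (hw : ∀ i, w i ∈ T)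
    (h : ∀ y ∈ T, St Q fun s => (g s).elim y w) (y : MM Γ b) : St Q fun s => (g s).elim y w := by
  by_contra hn
  obtain ⟨m, ⟨e⟩⟩ := Finite.exists_equiv_fin ι
  let g' : κ → Fin m ⊕ Fin 1 := fun s => (g s).elim (.inr 0) fun i => .inl (e i)
  have k : ∀ x : Fin 1 → MM Γ b,
      St (fun z : Fin m ⊕ Fin 1 → Γ.G => (Q fun s => z (g' s)) → False)
        (Sum.elim (fun i => w (e.symm i)) x) ↔ ¬ St Q fun s => (g s).elim (x 0) w := fun x => by
    have e1 : (fun s => (g s).elim (x 0) w) =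
        fun s => Sum.elim (fun i => w (e.symm i)) x (g' s) := funext fun s => by
      simp only [g']
      cases g s <;> simp
    rw [st_imp, e1]
    exact imp_iff_not (st_false _)
  obtain ⟨x, hx, hs⟩ := (all_KEY Γ b T hT).2 m 1 _ (tr_imp (reix hQ g') tr_false) _
    (fun i => hw _) (fun _ => y) (fun _ => Subgroup.mem_top _) ((k fun _ => y).2 hn)
  exact (k x).1 hs (h _ (hx 0))

variable {L : Type} [Group L]

theorem elem_bd (ψ : L →* MM Γ b) (hψ : Function.Injective ψ) (hT : GC ψ.range)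
    {α : Type} [Finite α] {n : ℕ} (φ : grpLang.BoundedFormula α n) (v : α ⊕ Fin n → L) :
    @Language.BoundedFormula.Realize grpLang L (grpStructure L) α n φ
        (fun i => v (.inl i)) (fun i => v (.inr i)) ↔
      St (fun z : α ⊕ Fin n → Γ.G =>
        @Language.BoundedFormula.Realize grpLang Γ.G (grpStructure Γ.G) α n φ
          (fun i => z (.inl i)) fun i => z (.inr i)) fun s => ψ (v s) := by
  let _ := grpStructure Γ.G
  let _ := grpStructure L
  induction φ with
  | falsum => exact iff_of_false id (st_false _)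
  | @equal n t1 t2 =>
    obtain ⟨w1, h1⟩ := term_word t1
    obtain ⟨w2, h2⟩ := term_word t2
    have e : ∀ (X : Type) (z : α ⊕ Fin n → X),
        Sum.elim (fun i => z (.inl i)) (fun i => z (.inr i)) = z :=
      fun X z => funext fun s => by cases s <;> rfl
    simp only [Language.BoundedFormula.Realize, e, h1, h2]
    have k := st_one (Γ := Γ) (w1 * w2⁻¹) fun s => ψ (v s)
    rw [← map_lift ψ v, map_eq_one_iff ψ hψ] at k
    simp only [map_mul, map_inv, mul_inv_eq_one] at k
    exact k.symm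
  | rel R _ => exact R.elim
  | imp f1 f2 ih1 ih2 => exact (imp_congr (ih1 v) (ih2 v)).trans (st_imp _ _ _).symm
  | @all n f ih =>
    let g : α ⊕ Fin (n + 1) → Option (α ⊕ Fin n) :=
      Sum.elim (fun i => some (.inl i))
        (Fin.snoc (α := fun _ => Option (α ⊕ Fin n)) (fun j => some (.inr j)) none)
    have e2 : ∀ (X : Type) (z : α ⊕ Fin n → X) (x : X),
        (fun i => (g (.inr i)).elim x z) =
          Fin.snoc (α := fun _ => X) (fun i => z (.inr i)) x := fun X z x => by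
      funext i
      refine Fin.lastCases ?_ (fun j => ?_) i <;> simp [g]
    have e3 : ∀ x : L, (fun s => ψ ((g s).elim x v)) =
        fun s => (g s).elim (ψ x) fun s => ψ (v s) := fun x => funext fun s => by
      cases g s <;> rfl
    have k := st_all (fun z : α ⊕ Fin (n + 1) → Γ.G =>
      f.Realize (fun i => z (.inl i)) fun i => z (.inr i)) g fun s => ψ (v s)
    have k1 := fun x : L => ih fun s => (g s).elim x v
    simp only [e2, e3] at k k1
    refine Iff.trans ?_ k.symm
    refine ⟨fun h => key_all (tr_bd all_KEY f) g hT _ (fun i => ⟨_, rfl⟩) ?_,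
      fun h x => (k1 x).2 (h _)⟩
    rintro _ ⟨x, rfl⟩
    exact (k1 x).1 (h x)

theorem elem_sub (ψ : L →* MM Γ b) (hψ : Function.Injective ψ) (hT : GC ψ.range)
    {α : Type} [Finite α] (φ : grpLang.Formula α) (v : α → L) :
    Rz L φ v ↔ St (Rz Γ.G φ) fun s => ψ (v s) := by
  have k := elem_bd ψ hψ hT φ (Sum.elim v Fin.elim0)
  have e : ∀ (X : Type) [Group X] (z : α → X) (x : Fin 0 → X), Rz X φ z ↔
      @Language.BoundedFormula.Realize grpLang X (grpStructure X) α 0 φ z x := fun X _ z x => by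
    rw [Subsingleton.elim x default]
    rfl
  exact (e L v _).trans (k.trans (eventually_congr (Eventually.of_forall fun j =>
    (e Γ.G _ _).symm)))

theorem gc_std : GC (std Γ b) := by
  refine all_CVX Γ b _ ⟨le_rfl, fun h hh p hp => mem_std_iff.2 fun hb => ?_⟩
  have h1 := (hb.ll_of_not_big hp).add (hb.ll_of_not_big (mem_std_iff.1 hh))
  refine h1.not_ls hb.pos (Ls.of_le ?_)
  linarith [ds_nonneg p h]

theorem core {Z K : Subgroup Γ.G} (hL : Leg Γ Z K) :
    ∃ (b : Amb) (ψ : Hnn K →* MM Γ b) (t : b.I → Γ.G), Function.Injective ψ ∧ GC ψ.range ∧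
      (∀ g, ψ (HNNExtension.of g) = cst Γ b g) ∧ ψ HNNExtension.t = Germ.ofFun t ∧
      ∀ j, t j ∈ Z := by
  obtain ⟨t, τ, h0, h1⟩ := gmic Γ 1 (fun _ => Z) (fun _ => K) fun _ => hL
  obtain ⟨hμ, hU⟩ := h1 Stab0.amb
  have eu : (Stab0.amb.mk' U0 fun n => cst Γ Stab0.amb (t 0 n)) =
      Germ.ofFun fun p : (Stab0.amb.pow U0).I => t 0 p.1 :=
    Bas2A.mk_coe U0 fun (n : ℕ) (_ : Stab0.amb.I) => t 0 n
  generalize (Stab0.amb.mk' U0 fun n => (τ n : Stab0.amb.K)) = μ at hμ hU
  obtain ⟨u, hu⟩ : ∃ u : Fin 1 → MM Γ (Stab0.amb.pow U0),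
    u = fun i => Stab0.amb.mk' U0 fun n => cst Γ Stab0.amb (t i n) := ⟨_, rfl⟩
  rw [← hu] at hU
  obtain ⟨top, ext, -, cj, -⟩ := all_LET Γ _ μ _ 1 _ u hμ gc_std.toGC0 (ET.std_le_ball hμ) hU
  let ψ : Hnn K →* MM Γ (Stab0.amb.pow U0) :=
    HNNExtension.lift (cst Γ _) (u 0) fun k => (hU.comm 0 k k.2).eq
  have ψ1 : ∀ g, ψ (HNNExtension.of g) = cst Γ _ g := fun g => HNNExtension.lift_of _ _ _ g
  have ψ2 : ψ HNNExtension.t = u 0 := HNNExtension.lift_t _ _ _
  have hr : ψ.range = std Γ _ ⊔ Subgroup.closure (Set.range u) := by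
    refine le_antisymm ?_ (sup_le ?_ ((Subgroup.closure_le _).2 ?_))
    · rintro _ ⟨x, rfl⟩
      have hu0 : u 0 ∈ std Γ _ ⊔ Subgroup.closure (Set.range u) :=
        Subgroup.mem_sup_right (Subgroup.subset_closure ⟨0, rfl⟩)
      induction x using HNNExtension.induction_on with
      | of g => exact Subgroup.mem_sup_left ⟨g, (ψ1 g).symm⟩
      | t => rwa [ψ2]
      | mul x y hx hy => rw [map_mul]; exact mul_mem hx hy
      | inv x hx => rw [map_inv]; exact inv_mem hx
    · rintro _ ⟨g, rfl⟩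
      exact ⟨HNNExtension.of g, ψ1 g⟩
    · rintro _ ⟨i, rfl⟩
      exact ⟨HNNExtension.t, by rw [Subsingleton.elim i 0]; exact ψ2⟩
  let e : Γ.G ≃* std Γ (Stab0.amb.pow U0) := MonoidHom.ofInjective cst_injective
  obtain ⟨θ, θ1, θ2⟩ := ext (Hnn K) (HNNExtension.of.comp e.symm.toMonoidHom)
    (fun _ => HNNExtension.t) fun i x y hxy => by
      obtain ⟨k, hk, ek⟩ := cj i x x.2 (hxy ▸ y.2)
      have e1 : x = e k := Subtype.ext ek.symm
      have e2 : y = e k := Subtype.ext (by
        rw [hxy, ← ek, mul_assoc, ← (hU.comm i k hk).eq, inv_mul_cancel_left]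
        rfl)
      rw [e1, e2]
      simp only [MonoidHom.comp_apply, MulEquiv.coe_toMonoidHom, MulEquiv.symm_apply_apply]
      rw [mul_assoc, eq_inv_mul_iff_mul_eq]
      exact HNNExtension.t_mul_of (φ := MulEquiv.refl K) ⟨k, hk⟩
  have hid : θ.comp (ψ.codRestrict _ fun x => hr.le ⟨x, rfl⟩) = MonoidHom.id _ := by
    refine HNNExtension.hom_ext (MonoidHom.ext fun g => ?_) ?_
    · refine Eq.trans (congrArg θ (Subtype.ext ?_)) ((θ1 (e g)).trans ?_)
      · exact ψ1 g
      · simp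
    · exact Eq.trans (congrArg θ (Subtype.ext (by exact ψ2))) (θ2 0)
  refine ⟨_, ψ, fun p => t 0 p.1, fun x y hxy => ?_, ?_, ψ1,
    ψ2.trans (by rw [hu]; exact eu), fun p => h0 0 _⟩
  · have := congrArg θ (Subtype.ext hxy : (ψ.codRestrict _ fun x => hr.le ⟨x, rfl⟩) x =
      (ψ.codRestrict _ fun x => hr.le ⟨x, rfl⟩) y)
    exact (DFunLike.congr_fun hid x).symm.trans (this.trans (DFunLike.congr_fun hid y))
  · rw [hr]
    exact ⟨top.gc, fun R h1 h2 => (top.fin R h1 h2).imp fun p hp => ⟨hp.1, hp.2.elim id id⟩⟩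

theorem elementary {Z K : Subgroup Γ.G} (hL : Leg Γ Z K) :
    IsElementary (HNNExtension.of : Γ.G →* Hnn K) := by
  obtain ⟨b, ψ, t, h1, h2, h3, -⟩ := core hL
  let _ := grpStructure Γ.G
  let _ := grpStructure (Hnn K)
  refine ⟨⟨HNNExtension.of, fun n φ x => (elem_sub ψ h1 h2 φ _).trans ?_⟩, rfl⟩
  simp only [Function.comp_apply, h3]
  exact (st_coe (a := b) (Rz Γ.G φ) fun s _ => x s).trans eventually_const

/-- the twist of the letter by an element of the centraliser -/
def tw {G : Type} [Group G] {K : Subgroup G} {h : G} (hh : h ∈ Subgroup.centralizer (K : Set G)) :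
    Hnn K →* Hnn K :=
  HNNExtension.lift HNNExtension.of (HNNExtension.of h * HNNExtension.t) fun k => by
    rw [mul_assoc, HNNExtension.t_mul_of, ← mul_assoc, ← mul_assoc, ← map_mul, ← map_mul,
      MulEquiv.refl_apply, hh k k.2]

theorem tw_tw {G : Type} [Group G] {K : Subgroup G} {h h' : G}
    (hh : h ∈ Subgroup.centralizer (K : Set G)) (hh' : h' ∈ Subgroup.centralizer (K : Set G))
    (e : h * h' = 1) (x : Hnn K) : tw hh' (tw hh x) = x := by
  have : (tw hh').comp (tw hh) = MonoidHom.id _ := by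
    refine HNNExtension.hom_ext (MonoidHom.ext fun g => by simp [tw]) ?_
    simp only [tw, MonoidHom.comp_apply, HNNExtension.lift_t, map_mul, HNNExtension.lift_of,
      MonoidHom.id_apply]
    rw [← mul_assoc, ← map_mul, e, map_one, one_mul]
  exact DFunLike.congr_fun this x

theorem cent_le {H : Subgroup Γ.G} (hd : IsDefinable (H : Set Γ.G)) {Z K : Subgroup Γ.G}
    (hL : Leg Γ Z K) (hZ : Z ≤ H) : Subgroup.centralizer (K : Set Γ.G) ≤ H := by
  intro h hh
  obtain ⟨A, φ, hφ⟩ := exists_formula hd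
  obtain ⟨b, ψ, t, h1, h2, h3, h4, h5⟩ := core hL
  have hi := inv_mem hh
  have hs : Function.Surjective (tw hh) := fun x => ⟨_, tw_tw hi hh (inv_mul_cancel h) x⟩
  have hj : Function.Injective (tw hh) :=
    Function.LeftInverse.injective (tw_tw hh hi (mul_inv_cancel h))
  let v : A ⊕ Fin 1 → Hnn K :=
    Sum.elim (fun x => HNNExtension.of (x : Γ.G)) fun _ => HNNExtension.t
  have st : ∀ f : b.I → Γ.G, St (Rz Γ.G φ) (fun s => (Germ.ofFun
      (Sum.elim (fun (x : A) _ => (x : Γ.G)) (fun _ => f) s) : MM Γ b)) ↔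
      ∀ᶠ j in (b.V : Filter b.I), f j ∈ H := fun f => by
    rw [st_coe]
    refine eventually_congr (Eventually.of_forall fun j => Iff.trans ?_ (hφ (f j)).symm)
    exact iff_of_eq (congrArg _ (funext fun s => by cases s <;> rfl))
  have k1 := elem_sub ψ h1 h2 φ v
  have k2 := elem_sub (ψ.comp (tw hh)) (h1.comp hj) (by
    rwa [MonoidHom.range_comp, MonoidHom.range_eq_top.2 hs, ← MonoidHom.range_eq_map]) φ v
  have e1 : (fun s => ψ (v s)) = fun s => (Germ.ofFun
      (Sum.elim (fun (x : A) _ => (x : Γ.G)) (fun _ => t) s) : MM Γ b) := funext fun s => by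
    cases s
    · exact h3 _
    · exact h4
  have e2 : (fun s => ψ.comp (tw hh) (v s)) = fun s => (Germ.ofFun
      (Sum.elim (fun (x : A) _ => (x : Γ.G)) (fun _ j => h * t j) s) : MM Γ b) :=
    funext fun s => by
      cases s
      · simp only [v, tw, MonoidHom.comp_apply, Sum.elim_inl, HNNExtension.lift_of]
        exact h3 _
      · simp only [v, tw, MonoidHom.comp_apply, Sum.elim_inr, HNNExtension.lift_t, map_mul, h3,
          h4]
        rfl
  rw [e1, st] at k1
  rw [e2, st] at k2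
  obtain ⟨j, hj⟩ := (k2.1 (k1.2 (Eventually.of_forall fun j => hZ (h5 j)))).exists
  simpa using H.mul_mem hj (H.inv_mem (hZ (h5 j)))

open Fin0 in
theorem of_HG {P : (G : Type) → [Group G] → Prop} (hP : ∀ Γ : HG, P Γ.G) (G : Type) [Group G]
    (hG : IsHyperbolic G) : P G := by
  obtain ⟨S, hS, δ, h0, h⟩ := hG
  have c := conn hS
  obtain ⟨δ, h⟩ : ∃ δ : ℝ, FourPoint (SimpleGraph.mulCayley (S : Set G)) δ :=
    h.elim (fun a => ⟨δ, a⟩) fun a => (all_SLIM _ _ δ c h0 a).imp fun _ b => b.2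
  let R : HG0 :=
    { G := G
      len := fun g => (SimpleGraph.mulCayley (S : Set G)).dist 1 g
      len_eq_zero := fun g => c.dist_eq_zero_iff.trans eq_comm
      len_inv := fun g => by rw [← mul_one g⁻¹, dist_eq c, SimpleGraph.dist_comm]
      len_mul := fun g k => (c.dist_triangle (v := g)).trans_eq (by
        rw [← dist_eq c g, inv_mul_cancel_left])
      geo := geo c
      fin := fin c S.finite_toSet
      δ := ⌈δ⌉₊
      hyp := fun x y z => by
        have a := (h 1 x y z).trans (add_le_add_right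
          (mul_le_mul_of_nonneg_left (Nat.le_ceil δ) zero_le_two) _)
        rw [dist_eq c, dist_eq c, dist_eq c, SimpleGraph.dist_comm (u := 1),
          SimpleGraph.dist_comm (u := 1), SimpleGraph.dist_comm (u := 1)]
        exact_mod_cast a }
  obtain ⟨e, he⟩ := all_HG R
  exact hP ⟨R, e, he⟩

theorem tarski (Γ : HG) (K : Subgroup Γ.G) (hK : Finite K) :
    IsElementary (HNNExtension.of : Γ.G →* Hnn K) ↔
      ¬ VirtCyclic (Subgroup.normalizer (K : Set Γ.G)) ∧ ∀ R : Subgroup Γ.G, Finite R →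
        Subgroup.normalizer (K : Set Γ.G) ≤ Subgroup.normalizer (R : Set Γ.G) → R ≤ K :=
  ⟨legal_of_elementary hK, fun h =>
    elementary (leg h.1 hK le_rfl (h.2 _ (r0_fin h.1) (r0_norm _)))⟩

theorem malcev (Γ : HG) (H : Subgroup Γ.G) :
    IsDefinable (H : Set Γ.G) ↔ VirtCyclic H ∨ ∃ K : Subgroup Γ.G, Finite K ∧
      Subgroup.centralizer (K : Set Γ.G) ≤ H ∧ H ≤ Subgroup.normalizer (K : Set Γ.G) := by
  refine ⟨fun hd => or_iff_not_imp_left.2 fun h => ⟨_, r0_fin h,
    cent_le hd (leg h (r0_fin h) (r0_norm H) le_rfl) inf_le_right, r0_norm H⟩, ?_⟩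
  rintro (h | ⟨K, h1, h2, h3⟩)
  exacts [definable_vc h, definable_mid h1 h2 h3]

end Fo

end Pool.Agent.P.MP_dba3d2_lc
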